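import Pool.Agent.Q290.FW.FurtM

/-!
# Furtwaengler's theorem over quadratic fields

Let `K` be a quadratic field of discriminant `d`, let `p ≥ 5` be a prime dividing `n`, and let
`x ^ n + y ^ n = z ^ n` be a solution over `K` in the first case at `p`: at each prime above `p` the
three numbers have the same valuation. Let `q` be any prime number with `q ^ (p - 1)` not congruent to
`1` modulo `p ^ 2`. Then none of `x, y, z` is divisible by all the primes above `q` (after scaling
locally). In particular, `q` does not divide `x y z` if only one prime of `K` lies above `q`, that is,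
if `q` is inert or ramified. If moreover `p ≥ 7`, `q` is not congruent to `1` modulo `p`, and `p` does
not divide the Bernoulli number with index `p - 3` or `- 15 d` is not a nonzero square modulo `p`,
then some prime above `q` divides none of the three.

For `ℚ` in place of `K` this is the first theorem of Furtwaengler (1912), which gives the criteria of
Wieferich (`q = 2`) for the first case. There is no condition on class numbers or units.

Proof. Let `X ^ p + Y ^ p + Z ^ p = 0` be the scaled solution. The norm `f (ζ)` of `X + ζ Y` to the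
field of `p`-th roots of unity is a rational number times the `p`-th power of an ideal. There is an `a`
with `(1 + a) ^ p - 1 - a ^ p` not divisible by `p ^ 2`, and the relation of Stickelberger for
`J (χ, χ ^ a)` makes a product of conjugates of `f (ζ)` equal to a root of unity times a `p`-th power.
The root of unity is computed modulo `(1 - ζ) ^ 2` and modulo `q`, where `f` is a palindromic
polynomial up to sign and a shift, if at each prime above `q` one of `X`, `Y`, `X + Y`, `X - Y`
vanishes. The comparison gives a linear relation modulo `p` between the norms of `X, Y, Z`, in which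
the numbers of primes dividing `X` and `Y` occur. The relations for the pairs are contradictory, or
give that the discriminant is `- 15` times a square modulo `p`; here the relations of all Jacobi
sums modulo higher powers of `1 - ζ` give that `p` divides the Bernoulli number.
-/

set_option autoImplicit false

namespace Pool.Agent.Results.MP_50a406_nt.FurtwaenglerQuadratic

open NumberField IsDedekindDomain

theorem result (K : Type) [Field K] [NumberField K] (hK : Module.finrank ℚ K = 2)
    (p n q : ℕ) (hp : p.Prime) (h5 : 5 ≤ p) (hq : q.Prime) (hW : ¬ p ^ 2 ∣ q ^ (p - 1) - 1)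
    (hn : p ∣ n) (x y z : K) (h : x ^ n + y ^ n = z ^ n) (hx : x ≠ 0) (hy : y ≠ 0) (hz : z ≠ 0)
    (hv : ∀ v : HeightOneSpectrum (𝓞 K), ((p : ℕ) : 𝓞 K) ∈ v.asIdeal →
      v.valuation K x = v.valuation K y ∧ v.valuation K y = v.valuation K z) :
    ((∃ v : HeightOneSpectrum (𝓞 K), ((q : ℕ) : 𝓞 K) ∈ v.asIdeal ∧
        v.valuation K y ≤ v.valuation K x) ∧
      (∃ v : HeightOneSpectrum (𝓞 K), ((q : ℕ) : 𝓞 K) ∈ v.asIdeal ∧
        v.valuation K z ≤ v.valuation K y) ∧
      (∃ v : HeightOneSpectrum (𝓞 K), ((q : ℕ) : 𝓞 K) ∈ v.asIdeal ∧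
        v.valuation K x ≤ v.valuation K z)) ∧
    (7 ≤ p → q % p ≠ 1 →
      (¬ (p : ℤ) ∣ (bernoulli (p - 3)).num ∨
        ¬ ∃ s : ZMod p, s ≠ 0 ∧ s ^ 2 = -15 * (NumberField.discr K : ZMod p)) →
      ∃ v : HeightOneSpectrum (𝓞 K), ((q : ℕ) : 𝓞 K) ∈ v.asIdeal ∧
        v.valuation K x = v.valuation K y ∧ v.valuation K y = v.valuation K z) := by
  obtain ⟨k, rfl⟩ := hn
  have hk : k ≠ 0 := by
    rintro rfl
    simp at h
  have hodd : Odd p := hp.odd_of_ne_two (by omega)
  have hF : (x ^ k) ^ p + (y ^ k) ^ p + (-z ^ k) ^ p = 0 := by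
    rw [hodd.neg_pow, ← pow_mul, ← pow_mul, ← pow_mul, mul_comm k p, h]
    ring
  have hx' := pow_ne_zero k hx
  have hy' := pow_ne_zero k hy
  have hz' := neg_ne_zero.2 (pow_ne_zero k hz)
  have hF2 : (y ^ k) ^ p + (-z ^ k) ^ p + (x ^ k) ^ p = 0 := by rw [← hF]; ring
  have hF3 : (-z ^ k) ^ p + (x ^ k) ^ p + (y ^ k) ^ p = 0 := by rw [← hF]; ring
  have g : ∀ v : HeightOneSpectrum (𝓞 K), ((p : ℕ) : 𝓞 K) ∈ v.asIdeal →
      v.valuation K (x ^ k) = v.valuation K (y ^ k) ∧
        v.valuation K (y ^ k) = v.valuation K (-z ^ k) := by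
    intro v hpv
    obtain ⟨h1, h2⟩ := hv v hpv
    rw [Valuation.map_neg, map_pow, map_pow, map_pow, h1, h2]
    exact ⟨rfl, rfl⟩
  have hle : ∀ (v : HeightOneSpectrum (𝓞 K)) (a b : K),
      v.valuation K (a ^ k) ≤ v.valuation K (b ^ k) → v.valuation K a ≤ v.valuation K b := by
    intro v a b hab
    rw [map_pow, map_pow] at hab
    exact (pow_le_pow_iff_left₀ zero_le' zero_le' hk).1 hab
  have heq : ∀ (v : HeightOneSpectrum (𝓞 K)) (a b : K),
      v.valuation K (a ^ k) = v.valuation K (b ^ k) → v.valuation K a = v.valuation K b :=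
    fun v a b hab => le_antisymm (hle v a b hab.le) (hle v b a hab.ge)
  obtain ⟨⟨v1, q1, e1⟩, r⟩ := Q290.FW.furtQ hp h5 hq hW hK hx' hy' hz' hF g
  obtain ⟨⟨v2, q2, e2⟩, -⟩ := Q290.FW.furtQ hp h5 hq hW hK hy' hz' hx' hF2
    fun v hpv => ⟨(g v hpv).2, ((g v hpv).1.trans (g v hpv).2).symm⟩
  obtain ⟨⟨v3, q3, e3⟩, -⟩ := Q290.FW.furtQ hp h5 hq hW hK hz' hx' hy' hF3
    fun v hpv => ⟨((g v hpv).1.trans (g v hpv).2).symm, (g v hpv).1⟩
  rw [Valuation.map_neg] at e2 e3
  refine ⟨⟨⟨v1, q1, hle _ _ _ e1⟩, ⟨v2, q2, hle _ _ _ e2⟩, ⟨v3, q3, hle _ _ _ e3⟩⟩, ?_⟩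
  intro h7 hq1 hd
  obtain ⟨v, qv, u1, u2⟩ := r h7 hq1 hd
  rw [Valuation.map_neg] at u2
  exact ⟨v, qv, heq _ _ _ u1, heq _ _ _ u2⟩

end Pool.Agent.Results.MP_50a406_nt.FurtwaenglerQuadratic
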