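import Pool.Agent.Q290.FW.Mix3

/-!
# The criterion of Mirimanoff over quadratic fields

Let `p ≥ 11` be a prime such that `3 ^ (p - 1)` is not congruent to `1` modulo `p ^ 2`, and let `K` be a
quadratic field of discriminant `d` such that `- 3 d` is not a nonzero square modulo `p`. Then the first
case of Fermat's Last Theorem holds over `K` for all exponents divisible by `p` if three ramifies in
`K`; and if three splits in `K` and `p` does not divide the Bernoulli number with index `p - 3`, or
neither `- 7 d` nor `- 15 d` is a nonzero square modulo `p`. If `p` splits in `K` this means that no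
solution is in the first case at ANY of the two primes above `p`. There is no condition on the class
numbers and units of `K` or on the regularity of `p`, and no condition at two.

For `K = Q(√-3)`, where `1 + ω ^ p + ω ^ (2 p) = 0`, three ramifies and `- 3 d = 9`, so the condition on
`- 3 d` cannot be dropped.

Proof. Let `X ^ p + Y ^ p + Z ^ p = 0` be the scaled solution. The norm `f (ζ)` of `X + ζ Y` to the
field of `p`-th roots of unity is a rational number times the `p`-th power of an ideal. There is an `a`
with `(1 + a) ^ p - 1 - a ^ p` not divisible by `p ^ 2`, and the relation of Stickelberger for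
`J (χ, χ ^ a)` makes a product of conjugates of `f (ζ)` equal to a root of unity times a `p`-th power.
All integers of `K` are congruent to `0, 1, -1` at the primes above three; so `f` is modulo three, up
to sign and a shift, a palindromic polynomial, and the root of unity is computed modulo
`(1 - ζ) ^ 2` and modulo three. The comparison gives a linear relation modulo `p` between the norms of
`X, Y, Z`, in which the numbers of primes above three which divide `X` and `Y` occur. If these numbers
have the sum `0, 1, 2`, the three relations give that the discriminant is `- 3`, `- 7`, `- 15` times a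
nonzero square modulo `p`. If the sum is positive then three splits and the relations of all Jacobi
sums modulo higher powers of `1 - ζ` give that `p` divides the Bernoulli number with index `p - 3`.
A solution which is in the first case at only one of the primes above `p` is excluded by `mixK`.
-/

set_option autoImplicit false

namespace Pool.Agent.Results.MP_50a406_nt.MirimanoffQuadratic

open NumberField IsDedekindDomain

theorem result (K : Type) [Field K] [NumberField K] (hK : Module.finrank ℚ K = 2)
    (p n : ℕ) (hp : p.Prime) (h11 : 11 ≤ p) (hM : ¬ p ^ 2 ∣ 3 ^ (p - 1) - 1)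
    (h3 : ¬ ∃ s : ZMod p, s ≠ 0 ∧ s ^ 2 = -3 * (NumberField.discr K : ZMod p))
    (hd : NumberField.discr K % 3 = 0 ∨
      (NumberField.discr K % 3 = 1 ∧ (¬ (p : ℤ) ∣ (bernoulli (p - 3)).num ∨
        ((¬ ∃ s : ZMod p, s ≠ 0 ∧ s ^ 2 = -7 * (NumberField.discr K : ZMod p)) ∧
          ¬ ∃ s : ZMod p, s ≠ 0 ∧ s ^ 2 = -15 * (NumberField.discr K : ZMod p)))))
    (hn : p ∣ n) (x y z : K) (h : x ^ n + y ^ n = z ^ n) (hx : x ≠ 0) (hy : y ≠ 0) (hz : z ≠ 0) :
    ∀ v : HeightOneSpectrum (𝓞 K), ((p : ℕ) : 𝓞 K) ∈ v.asIdeal →
      ¬ (v.valuation K x = v.valuation K y ∧ v.valuation K y = v.valuation K z) := by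
  intro v₀ hv₀ ho
  obtain ⟨k, rfl⟩ := hn
  have hodd : Odd p := hp.odd_of_ne_two (by omega)
  have hF : (x ^ k) ^ p + (y ^ k) ^ p + (-z ^ k) ^ p = 0 := by
    rw [hodd.neg_pow, ← pow_mul, ← pow_mul, ← pow_mul, mul_comm k p, h]
    ring
  have hx' := pow_ne_zero k hx
  have hy' := pow_ne_zero k hy
  have hz' := neg_ne_zero.2 (pow_ne_zero k hz)
  refine Q290.FW.miriQ hp h11 hM hK h3 hd hx' hy' hz' hF fun v hv => ?_
  refine Q290.FW.mixK hp (by omega) hK (Or.inr (Or.inl ⟨hM, hd.imp id fun h => h.1⟩)) hx' hy' hz' hF
    v₀ hv₀ ?_ v hv
  obtain ⟨h1, h2⟩ := ho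
  rw [Valuation.map_neg, map_pow, map_pow, map_pow, h1, h2]
  exact ⟨rfl, rfl⟩

end Pool.Agent.Results.MP_50a406_nt.MirimanoffQuadratic
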