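import Pool.Agent.Y546.SG.Main
import Pool.Agent.Q146.SG.Cond

/-!
# Sophie Germain's theorem over quadratic fields

Let `p` be odd and `q` a prime such that `a ^ p + b ^ p + c ^ p = 0` has only solutions with
`a b c = 0` modulo `q` and such that `p` is not a `p`-th power modulo `q` (the conditions of Sophie
Germain). Let `K` be a quadratic field in which `q` is not inert. If `q` ramifies in `K`, or if the
finite condition `Separated` on the `p`-th roots of unity modulo `q` holds, then the first case of
Fermat's Last Theorem holds over `K` for all exponents divisible by `p`. There is no condition on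
the class number, the units or the discriminant of `K` modulo `p`, nor on Bernoulli numbers.

For a Sophie Germain prime, `q = 2 p + 1`, the conditions hold, and `Separated` holds if
`p = 1, 3` modulo five: so for these primes the first case holds over every quadratic field in which
`2 p + 1` is not inert. At ramified primes all `q = 2 p + 1`, `q = 4 p + 1`, and, for every `k`
prime to three, all large `q = 2 k p + 1` can be used.

Proof (library `Pool/Agent/Y546/SG`). In the first case the ideals of `y + z` and of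
`(y ^ p + z ^ p) / (y + z)` are `p`-th powers of ideals up to the common divisor of `x, y, z`, so their
norms are known modulo `p`-th powers. The norms are products of the two residues modulo the primes
above `q` (or squares of the residue, if `q` ramifies), and one of `x, y, z` is zero at each of them.
-/

set_option autoImplicit false

namespace Pool.Agent.Results.MP_50a406_nt.SophieGermain

open NumberField IsDedekindDomain

/-- `a` is a `p`-th power in the field `F` -/
def IsPower {F : Type} [Field F] (p : ℕ) (a : F) : Prop := ∃ t : F, t ^ p = a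

/-- Sophie Germain's conditions for the auxiliary prime `q` -/
def Germain (p q : ℕ) [Fact q.Prime] : Prop :=
  (∀ a b c : ZMod q, a ^ p + b ^ p + c ^ p = 0 → a = 0 ∨ b = 0 ∨ c = 0) ∧
    ¬ IsPower p (p : ZMod q)

/-- the condition on the `p`-th roots of unity modulo `q` used at primes `q` which split -/
def Separated (p q : ℕ) [Fact q.Prime] : Prop :=
  ∀ u v : ZMod q, u ^ p = 1 → v ^ p = 1 → (u ≠ 1 ∨ v ≠ 1) →
    ¬ (IsPower p (u * v) ∧ IsPower p ((1 - u) * (1 - v))) ∧
    ¬ (IsPower p ((1 - u) / (u * v)) ∧ IsPower p ((1 - v) / (u * v)) ∧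
      (u = 1 → IsPower p ((p : ZMod q) * (1 - v))) ∧ (v = 1 → IsPower p ((p : ZMod q) * (1 - u))))

/-- the first case of Fermat's Last Theorem over `K` for all exponents divisible by `p`: in every
solution with nonzero `x, y, z` the valuations of `x, y, z` at some prime above `p` are not all
equal -/
def FirstCase (K : Type) [Field K] [NumberField K] (p : ℕ) : Prop :=
  ∀ n : ℕ, p ∣ n → ∀ x y z : K, x ≠ 0 → y ≠ 0 → z ≠ 0 → x ^ n + y ^ n = z ^ n →
    ∃ v : HeightOneSpectrum (𝓞 K), ((p : ℕ) : 𝓞 K) ∈ v.asIdeal ∧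
      ¬ (v.valuation K x = v.valuation K y ∧ v.valuation K y = v.valuation K z)

/-- `q` is not inert in `K`: some ideal has norm `q` -/
def NotInert (K : Type) [Field K] [NumberField K] (q : ℕ) : Prop :=
  ∃ Q : Ideal (𝓞 K), Ideal.absNorm Q = q

theorem core (K : Type) [Field K] [NumberField K] (hK : Module.finrank ℚ K = 2) (p q : ℕ)
    [Fact q.Prime] (hp : Odd p) (hQ : NotInert K q) (hG : Germain p q)
    (hc : (q : ℤ) ∣ NumberField.discr K ∨ Separated p q) : FirstCase K p := by
  intro n hn x y z hx hy hz h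
  by_contra hcon
  push Not at hcon
  obtain ⟨k, rfl⟩ := hn
  have hF : (x ^ k) ^ p + (y ^ k) ^ p + (-z ^ k) ^ p = 0 := by
    rw [hp.neg_pow, ← pow_mul, ← pow_mul, ← pow_mul, mul_comm k p, h]
    ring
  obtain ⟨Q, hQ⟩ := hQ
  have hc' : Pool.Agent.Y546.SG.Apart (ZMod q) p ∨ (q : ℤ) ∣ NumberField.discr K := hc.symm
  refine Pool.Agent.Y546.SG.main hK hp Q hQ hG.1 hG.2 hc' (pow_ne_zero k hx) (pow_ne_zero k hy)
    (neg_ne_zero.2 (pow_ne_zero k hz)) hF fun v hv => ?_
  obtain ⟨h1, h2⟩ := hcon v hv
  rw [Valuation.map_neg, map_pow, map_pow, map_pow, h1, h2]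
  exact ⟨rfl, rfl⟩

/-- **Sophie Germain's theorem over quadratic fields.** -/
theorem result :
    -- the criterion
    (∀ (K : Type) [Field K] [NumberField K], Module.finrank ℚ K = 2 → ∀ (p q : ℕ) [Fact q.Prime],
      Odd p → NotInert K q → Germain p q → ((q : ℤ) ∣ NumberField.discr K ∨ Separated p q) →
        FirstCase K p) ∧
    -- Sophie Germain primes
    (∀ p : ℕ, Odd p → 3 ≤ p → (2 * p + 1).Prime →
      ∀ (K : Type) [Field K] [NumberField K], Module.finrank ℚ K = 2 → NotInert K (2 * p + 1) →
        (p % 5 = 1 ∨ p % 5 = 3 ∨ ((2 * p + 1 : ℕ) : ℤ) ∣ NumberField.discr K) → FirstCase K p) ∧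
    -- `q = 4 p + 1`
    (∀ p : ℕ, Odd p → 3 ≤ p → (4 * p + 1).Prime →
      ∀ (K : Type) [Field K] [NumberField K], Module.finrank ℚ K = 2 → NotInert K (4 * p + 1) →
        ((4 * p + 1 : ℕ) : ℤ) ∣ NumberField.discr K → FirstCase K p) ∧
    -- `q = 2 k p + 1`
    (∀ k : ℕ, 1 ≤ k → ¬ 3 ∣ k → ∃ P : ℕ, ∀ p : ℕ, Odd p → P ≤ p → (2 * k * p + 1).Prime →
      ∀ (K : Type) [Field K] [NumberField K], Module.finrank ℚ K = 2 → NotInert K (2 * k * p + 1) →
        ((2 * k * p + 1 : ℕ) : ℤ) ∣ NumberField.discr K → FirstCase K p) := by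
  refine ⟨?_, ?_, ?_, ?_⟩
  · intro K _ _ hK p q _ hp hQ hG hc
    exact core K hK p q hp hQ hG hc
  · intro p hp hp3 hq K _ _ hK hQ hc
    have : Fact (2 * p + 1).Prime := ⟨hq⟩
    refine core K hK p (2 * p + 1) hp hQ
      (Pool.Agent.Q146.SG.conditions_one (q := 2 * p + 1) hp hp3 rfl) ?_
    rcases hc with h | h | h
    · exact Or.inr (Pool.Agent.Q146.SG.apart_one hp hp3 rfl
        (Pool.Agent.Q146.SG.five_not_square (by omega) (by omega)))
    · exact Or.inr (Pool.Agent.Q146.SG.apart_one hp hp3 rfl
        (Pool.Agent.Q146.SG.five_not_square (by omega) (by omega)))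
    · exact Or.inl h
  · intro p hp hp3 hq K _ _ hK hQ hc
    have : Fact (4 * p + 1).Prime := ⟨hq⟩
    exact core K hK p (4 * p + 1) hp hQ
      (Pool.Agent.Q146.SG.conditions_two (q := 4 * p + 1) hp hp3 rfl) (Or.inl hc)
  · intro k hk h3
    obtain ⟨P, hP⟩ := Pool.Agent.Q146.SG.conditions k hk h3
    refine ⟨P, fun p hp hPp hq K _ _ hK hQ hc => ?_⟩
    have : Fact (2 * k * p + 1).Prime := ⟨hq⟩
    exact core K hK p (2 * k * p + 1) hp hQ (hP p hp hPp (2 * k * p + 1) rfl) (Or.inl hc)

end Pool.Agent.Results.MP_50a406_nt.SophieGermain
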