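import Pool.Agent.Q290.FW.Struct

/-!
# Fermat's equation over quadratic fields: the types of a solution at the primes above `p` and `q`

Let `K` be a quadratic field of discriminant `d`, `p ≥ 7` a prime, `p ∣ n`, and `x ^ n + y ^ n = z ^ n`
with nonzero `x, y, z` in `K`. At each prime `v` of `K` above `p` either `x, y, z` have the same
valuation (first case) or exactly one of them is more divisible by `v` than the other two, which have
the same valuation. The theorem compares these types for the different primes above `p`, and with the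
types at the primes above another prime number `q`, for example `q = 2`.

1. If `p` is not a Wieferich prime (or under one of three other conditions), then a solution which is
in the first case at one prime above `p` is in the first case at all primes above `p`.
2. Under the criteria of Wieferich and of Kummer and Eichler over quadratic fields (starting results,
which exclude the first case at all primes above `p`) no solution is in the first case at any prime
above `p`.
3. Let `q ^ (p - 1)` be not congruent to `1` modulo `p ^ 2`. If `x` is the more divisible number at all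
primes above `p`, then at all primes above `q`. If `x` is the more divisible number at one and `y` at
another prime above `p`, then the same holds for `q`. Here `q = 2`, or `q = 3` is not inert in `K`, or
`q` is not `1` modulo `p` and `x, y, z` do not have the same valuation at any prime above `q`.
4. If `p` is not a Wieferich prime and `2` does not split in `K`, then a solution is in the first case
at all primes above `p`, or one of `x, y, z` is more divisible than the other two at ALL primes above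
`2` and above `p`, as over the rational numbers.

There are no conditions on class numbers or units.

Proof. Let `X ^ p + Y ^ p + Z ^ p = 0` be the scaled solution. The norm `f (ζ)` of `X + ζ Y` to the field
of `p`-th roots of unity is a rational number times the `p`-th power of an ideal, without any
condition at `p` (`ideA`). If a conjugate of `X + Y` is divisible by a prime above `p` and another is not
then `f (ζ) / (ζ - 1)` is prime to `p`. The relations of Stickelberger for all Jacobi sums give the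
logarithmic derivative of the polynomial `f` modulo `p` at `1` in two ways, the second being the
numbers of conjugates of `X` and `Y` in a prime above `q`, if `q ^ (p - 1)` is not `1` modulo `p ^ 2`.
-/

set_option autoImplicit false

namespace Pool.Agent.Results.MP_50a406_nt.TypesAtSplitPrimes

open NumberField IsDedekindDomain

/-- The even numbers `k` with `2 ≤ k ≤ p - 3` for which `p` divides the numerator of the Bernoulli
number with index `k`. Their number is the index of irregularity of `p`. -/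
def Irregular (p : ℕ) : Finset ℕ :=
  (Finset.range p).filter fun k => Even k ∧ 2 ≤ k ∧ k + 3 ≤ p ∧ (p : ℤ) ∣ (bernoulli k).num

/-- `x, y, z` have the same valuation at `v`. -/
def Same {K : Type} [Field K] [NumberField K] (v : HeightOneSpectrum (𝓞 K)) (x y z : K) : Prop :=
  v.valuation K x = v.valuation K y ∧ v.valuation K y = v.valuation K z

/-- `a` is more divisible by `v` than `b` and `c` (the valuation is multiplicative). -/
def More {K : Type} [Field K] [NumberField K] (v : HeightOneSpectrum (𝓞 K)) (a b c : K) : Prop :=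
  v.valuation K a < v.valuation K b ∧ v.valuation K a < v.valuation K c

/-- `(a, b, c)` is `(x, y, z)`, `(y, z, x)` or `(z, x, y)`. -/
def Rotation {K : Type} (x y z a b c : K) : Prop :=
  (a = x ∧ b = y ∧ c = z) ∨ (a = y ∧ b = z ∧ c = x) ∨ (a = z ∧ b = x ∧ c = y)

theorem result (K : Type) [Field K] [NumberField K] (hK : Module.finrank ℚ K = 2)
    (p n : ℕ) (hp : p.Prime) (h7 : 7 ≤ p) (hn : p ∣ n) (x y z : K) (h : x ^ n + y ^ n = z ^ n)
    (hx : x ≠ 0) (hy : y ≠ 0) (hz : z ≠ 0) :
    -- no solutions of mixed type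
    ((¬ p ^ 2 ∣ 2 ^ (p - 1) - 1 ∨
        (¬ p ^ 2 ∣ 3 ^ (p - 1) - 1 ∧
          (NumberField.discr K % 3 = 0 ∨ NumberField.discr K % 3 = 1)) ∨
        ¬ (p : ℤ) ∣ (bernoulli (p - 3)).num ∨
        ((Irregular p).card + 1) * ((Irregular p).card + 2) + 3 ≤ p) →
      ∀ v₀ v : HeightOneSpectrum (𝓞 K), ((p : ℕ) : 𝓞 K) ∈ v₀.asIdeal →
        ((p : ℕ) : 𝓞 K) ∈ v.asIdeal → Same v₀ x y z → Same v x y z) ∧
    -- the second case at every prime above `p`
    ((¬ p ^ 2 ∣ 2 ^ (p - 1) - 1 ∧
        (Even (NumberField.discr K) ∨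
          (NumberField.discr K % 8 = 1 ∧ (¬ (p : ℤ) ∣ (bernoulli (p - 3)).num ∨
            ¬ ∃ s : ZMod p, s ≠ 0 ∧ s ^ 2 = -15 * (NumberField.discr K : ZMod p))) ∨
          (NumberField.discr K % 8 = 5 ∧
            ¬ ∃ s : ZMod p, s ≠ 0 ∧ s ^ 2 = -3 * (NumberField.discr K : ZMod p)))) ∨
      ((¬ ∃ s : ZMod p, s ≠ 0 ∧ s ^ 2 = -3 * (NumberField.discr K : ZMod p)) ∧
        ((¬ (p : ℤ) ∣ (bernoulli (p - 3)).num ∧ (¬ (p : ℤ) ∣ (bernoulli (p - 5)).num ∨
            ¬ ∃ s : ZMod p, s ≠ 0 ∧ s ^ 2 = -7 * (NumberField.discr K : ZMod p))) ∨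
          2 * (((Irregular p).card + 1) * ((Irregular p).card + 2)) + 3 ≤ p)) →
      ∀ v : HeightOneSpectrum (𝓞 K), ((p : ℕ) : 𝓞 K) ∈ v.asIdeal → ¬ Same v x y z) ∧
    -- the types at the primes above `p` and at the primes above `q`
    (∀ q : ℕ, q.Prime → ¬ p ^ 2 ∣ q ^ (p - 1) - 1 →
      (q = 2 ∨ (q = 3 ∧ (NumberField.discr K % 3 = 0 ∨ NumberField.discr K % 3 = 1)) ∨
        (q % p ≠ 1 ∧
          ∀ w : HeightOneSpectrum (𝓞 K), ((q : ℕ) : 𝓞 K) ∈ w.asIdeal → ¬ Same w x y z)) →
      ∀ a b c : K, Rotation x y z a b c →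
        ((∀ v : HeightOneSpectrum (𝓞 K), ((p : ℕ) : 𝓞 K) ∈ v.asIdeal → More v a b c) →
          ∀ w : HeightOneSpectrum (𝓞 K), ((q : ℕ) : 𝓞 K) ∈ w.asIdeal → More w a b c) ∧
        ((∃ v v' : HeightOneSpectrum (𝓞 K), ((p : ℕ) : 𝓞 K) ∈ v.asIdeal ∧
            ((p : ℕ) : 𝓞 K) ∈ v'.asIdeal ∧ More v a b c ∧ More v' b c a) →
          ∃ w w' : HeightOneSpectrum (𝓞 K), ((q : ℕ) : 𝓞 K) ∈ w.asIdeal ∧
            ((q : ℕ) : 𝓞 K) ∈ w'.asIdeal ∧ More w a b c ∧ More w' b c a)) ∧
    -- if two does not split then all primes above `2 p` have the same type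
    (¬ p ^ 2 ∣ 2 ^ (p - 1) - 1 →
      (∀ w w' : HeightOneSpectrum (𝓞 K), (2 : 𝓞 K) ∈ w.asIdeal → (2 : 𝓞 K) ∈ w'.asIdeal →
        w = w') →
      (∀ v : HeightOneSpectrum (𝓞 K), ((p : ℕ) : 𝓞 K) ∈ v.asIdeal → Same v x y z) ∨
      ∃ a b c : K, Rotation x y z a b c ∧
        ∀ v : HeightOneSpectrum (𝓞 K), (2 : 𝓞 K) ∈ v.asIdeal ∨ ((p : ℕ) : 𝓞 K) ∈ v.asIdeal →
          More v a b c) := by
  obtain ⟨k, rfl⟩ := hn
  have hk : k ≠ 0 := by
    rintro rfl
    simp at h
  have hodd : Odd p := hp.odd_of_ne_two (by omega)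
  have hF : (x ^ k) ^ p + (y ^ k) ^ p + (-z ^ k) ^ p = 0 := by
    rw [hodd.neg_pow, ← pow_mul, ← pow_mul, ← pow_mul, mul_comm k p, h]
    ring
  have hx' := pow_ne_zero k hx
  have hy' := pow_ne_zero k hy
  have hz' := neg_ne_zero.2 (pow_ne_zero k hz)
  have hiff : ∀ v : HeightOneSpectrum (𝓞 K),
      (v.valuation K (x ^ k) = v.valuation K (y ^ k) ∧
        v.valuation K (y ^ k) = v.valuation K (-z ^ k)) ↔
      (v.valuation K x = v.valuation K y ∧ v.valuation K y = v.valuation K z) := by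
    intro v
    rw [Valuation.map_neg, map_pow, map_pow, map_pow]
    have e : ∀ a b : WithZero (Multiplicative ℤ), a ^ k = b ^ k ↔ a = b := fun a b =>
      pow_left_inj₀ zero_le' zero_le' hk
    rw [e, e]
  have hirr : ∀ j : ℕ, ¬ (p : ℤ) ∣ (bernoulli j).num → j ∉ Y546.WQ.irr p := by
    intro j hj hk
    unfold Y546.WQ.irr at hk
    exact hj (Finset.mem_filter.1 hk).2.2.2.2
  have main : Q290.FW.Cond p (NumberField.discr K) →
      ∀ v₀ v : HeightOneSpectrum (𝓞 K), ((p : ℕ) : 𝓞 K) ∈ v₀.asIdeal →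
        ((p : ℕ) : 𝓞 K) ∈ v.asIdeal →
        v₀.valuation K x = v₀.valuation K y ∧ v₀.valuation K y = v₀.valuation K z →
        v.valuation K x = v.valuation K y ∧ v.valuation K y = v.valuation K z := by
    intro hC v₀ v h₀ hv he
    exact (hiff v).1 (Q290.FW.mixK hp (by omega) hK hC hx' hy' hz' hF v₀ h₀ ((hiff v₀).2 he) v hv)
  have hlt : ∀ (v : HeightOneSpectrum (𝓞 K)) (r s : WithZero (Multiplicative ℤ)),
      r ^ k < s ^ k ↔ r < s := fun v r s => pow_lt_pow_iff_left₀ zero_le' zero_le' hk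
  have heq : ∀ r s : WithZero (Multiplicative ℤ), r ^ k = s ^ k ↔ r = s := fun r s =>
    pow_left_inj₀ zero_le' zero_le' hk
  have hrot : ∀ a b c : K, Rotation x y z a b c → ∃ A B C : K, A ≠ 0 ∧ B ≠ 0 ∧ C ≠ 0 ∧
      A ^ p + B ^ p + C ^ p = 0 ∧ ∀ v : HeightOneSpectrum (𝓞 K),
        v.valuation K A = v.valuation K a ^ k ∧ v.valuation K B = v.valuation K b ^ k ∧
        v.valuation K C = v.valuation K c ^ k := by
    rintro a b c (⟨rfl, rfl, rfl⟩ | ⟨rfl, rfl, rfl⟩ | ⟨rfl, rfl, rfl⟩)
    · exact ⟨_, _, _, hx', hy', hz', hF, fun v => ⟨map_pow _ _ _, map_pow _ _ _,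
        by rw [Valuation.map_neg, map_pow]⟩⟩
    · exact ⟨_, _, _, hy', hz', hx', by rw [← hF]; ring, fun v => ⟨map_pow _ _ _,
        by rw [Valuation.map_neg, map_pow], map_pow _ _ _⟩⟩
    · exact ⟨_, _, _, hz', hx', hy', by rw [← hF]; ring, fun v =>
        ⟨by rw [Valuation.map_neg, map_pow], map_pow _ _ _, map_pow _ _ _⟩⟩
  have hsame : ∀ a b c : K, Rotation x y z a b c → ∀ v : HeightOneSpectrum (𝓞 K),
      (v.valuation K a = v.valuation K b ∧ v.valuation K b = v.valuation K c) →
        Same v x y z := by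
    rintro a b c (⟨rfl, rfl, rfl⟩ | ⟨rfl, rfl, rfl⟩ | ⟨rfl, rfl, rfl⟩) v ⟨e1, e2⟩
    · exact ⟨e1, e2⟩
    · exact ⟨(e1.trans e2).symm, e1⟩
    · exact ⟨e2, (e1.trans e2).symm⟩
  refine ⟨?_, ?_, ?_, ?_⟩
  · intro hC
    refine main ?_
    rcases hC with h1 | h1 | h1 | h1
    · exact Or.inl h1
    · exact Or.inr (Or.inl h1)
    · exact Or.inr (Or.inr (Or.inl ⟨h7, h1⟩))
    · exact Or.inr (Or.inr (Or.inr h1))
  · intro hC v hv he
    have hall : ∀ v' : HeightOneSpectrum (𝓞 K), ((p : ℕ) : 𝓞 K) ∈ v'.asIdeal →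
        v'.valuation K (x ^ k) = v'.valuation K (y ^ k) ∧
        v'.valuation K (y ^ k) = v'.valuation K (-z ^ k) := by
      intro v' hv'
      refine (hiff v').2 (main ?_ v v' hv hv' he)
      rcases hC with ⟨h1, -⟩ | ⟨-, ⟨h1, -⟩ | h1⟩
      · exact Or.inl h1
      · exact Or.inr (Or.inr (Or.inl ⟨h7, h1⟩))
      · refine Or.inr (Or.inr (Or.inr ?_))
        have h2 : ((Y546.WQ.irr p).card + 1) * ((Y546.WQ.irr p).card + 2) ≤
            2 * (((Y546.WQ.irr p).card + 1) * ((Y546.WQ.irr p).card + 2)) := by omega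
        have h3 : 2 * (((Y546.WQ.irr p).card + 1) * ((Y546.WQ.irr p).card + 2)) + 3 ≤ p := h1
        omega
    rcases hC with ⟨h1, h2⟩ | ⟨h1, h2⟩
    · refine Y546.WQ.mainQ hp h7 h1 hK ?_ hx' hy' hz' hF hall
      rcases h2 with h2 | ⟨h2, h3 | h3⟩ | h2
      · exact Or.inl h2
      · exact Or.inr (Or.inl ⟨h2, Or.inl (hirr _ h3)⟩)
      · exact Or.inr (Or.inl ⟨h2, Or.inr h3⟩)
      · exact Or.inr (Or.inr h2)
    · refine Y546.WQ.mainQC hp h7 hK ?_ h1 hx' hy' hz' hF hall
      rcases h2 with ⟨h2, h3 | h3⟩ | h2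
      · exact Or.inl ⟨hirr _ h2, Or.inr (hirr _ h3)⟩
      · exact Or.inl ⟨hirr _ h2, Or.inl h3⟩
      · exact Or.inr h2
  · intro q hq hW hC a b c hR
    obtain ⟨A, B, C, hA, hB, hC0, hABC, hv⟩ := hrot a b c hR
    have hCQ : ∀ A' B' C' : K, (∀ w : HeightOneSpectrum (𝓞 K),
        (w.valuation K A' = w.valuation K B' ∧ w.valuation K B' = w.valuation K C') →
          w.valuation K a = w.valuation K b ∧ w.valuation K b = w.valuation K c) →
        Q290.FW.CondQ q p (NumberField.discr K)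
          (∀ w : HeightOneSpectrum (𝓞 K), ((q : ℕ) : 𝓞 K) ∈ w.asIdeal →
            ¬ (w.valuation K A' = w.valuation K B' ∧ w.valuation K B' = w.valuation K C')) := by
      intro A' B' C' h'
      rcases hC with h1 | h1 | ⟨h1, h2⟩
      · exact Or.inl h1
      · exact Or.inr (Or.inl h1)
      · exact Or.inr (Or.inr ⟨h1, fun w hw hh => h2 w hw (hsame a b c hR w (h' w hh))⟩)
    constructor
    · intro hall w hw
      have h1 := Q290.FW.secK hp (by omega) hK hq hW hB hC0 hA (by rw [← hABC]; ring)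
        (fun v hpv => by
          obtain ⟨e1, e2, e3⟩ := hv v
          rw [e1, e2, e3, hlt v, hlt v]
          exact hall v hpv) (hCQ B C A (by
          intro w hh
          obtain ⟨e1, e2, e3⟩ := hv w
          rw [e1, e2, e3, heq, heq] at hh
          exact ⟨(hh.1.trans hh.2).symm, hh.1⟩)) w hw
      obtain ⟨e1, e2, e3⟩ := hv w
      rw [e1, e2, e3, hlt w, hlt w] at h1
      exact h1
    · rintro ⟨v, v', hpv, hpv', m1, m2⟩
      obtain ⟨⟨w, hw, k1⟩, w', hw', k2⟩ := Q290.FW.crossK hp (by omega) hK hq hW hA hB hC0 hABC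
        v v' hpv hpv' (by
          obtain ⟨e1, e2, e3⟩ := hv v
          rw [e1, e2, e3, hlt v, hlt v]
          exact m1) (by
          obtain ⟨e1, e2, e3⟩ := hv v'
          rw [e1, e2, e3, hlt v', hlt v']
          exact ⟨m2.2, m2.1⟩) (hCQ A B C (by
          intro w hh
          obtain ⟨e1, e2, e3⟩ := hv w
          rw [e1, e2, e3, heq, heq] at hh
          exact hh))
      refine ⟨w, w', hw, hw', ?_, ?_⟩
      · obtain ⟨e1, e2, e3⟩ := hv w
        rw [e1, e2, e3, hlt w, hlt w] at k1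
        exact k1
      · obtain ⟨e1, e2, e3⟩ := hv w'
        rw [e1, e2, e3, hlt w', hlt w'] at k2
        exact ⟨k2.2, k2.1⟩
  · intro hW h2
    have h2' : ∀ w w' : HeightOneSpectrum (𝓞 K), ((2 : ℕ) : 𝓞 K) ∈ w.asIdeal →
        ((2 : ℕ) : 𝓞 K) ∈ w'.asIdeal → w = w' := fun w w' hw hw' =>
      h2 w w' (by exact_mod_cast hw) (by exact_mod_cast hw')
    by_cases hall : ∀ v : HeightOneSpectrum (𝓞 K), ((p : ℕ) : 𝓞 K) ∈ v.asIdeal → Same v x y z
    · exact Or.inl hall
    right
    push Not at hall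
    obtain ⟨v₀, h₀, hns⟩ := hall
    have fin : ∀ a b c : K, Rotation x y z a b c → More v₀ a b c →
        ∃ a b c : K, Rotation x y z a b c ∧
          ∀ v : HeightOneSpectrum (𝓞 K), (2 : 𝓞 K) ∈ v.asIdeal ∨ ((p : ℕ) : 𝓞 K) ∈ v.asIdeal →
            More v a b c := by
      intro a b c hR hm
      refine ⟨a, b, c, hR, fun v hv2 => ?_⟩
      obtain ⟨A, B, C, hA, hB, hC0, hABC, hv⟩ := hrot a b c hR
      have h1 := Q290.FW.structK hp (by omega) hK hW h2' hB hC0 hA (by rw [← hABC]; ring) v₀ h₀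
        (by
          obtain ⟨e1, e2, e3⟩ := hv v₀
          rw [e1, e2, e3, hlt v₀, hlt v₀]
          exact hm) v (by
          rcases hv2 with hh | hh
          · exact Or.inl (by exact_mod_cast hh)
          · exact Or.inr hh)
      obtain ⟨e1, e2, e3⟩ := hv v
      rw [e1, e2, e3, hlt v, hlt v] at h1
      exact h1
    have ht := Q290.FW.types hp hx' hy' hz' hF v₀ h₀
    obtain ⟨-, -, -, hv⟩ : True ∧ True ∧ True ∧ (v₀.valuation K (x ^ k) = v₀.valuation K x ^ k ∧
        v₀.valuation K (y ^ k) = v₀.valuation K y ^ k ∧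
        v₀.valuation K (-z ^ k) = v₀.valuation K z ^ k) :=
      ⟨trivial, trivial, trivial, map_pow _ _ _, map_pow _ _ _, by rw [Valuation.map_neg, map_pow]⟩
    rw [hv.1, hv.2.1, hv.2.2, heq, heq, hlt v₀, hlt v₀, hlt v₀, hlt v₀, hlt v₀, hlt v₀] at ht
    rcases ht with h1 | h1 | h1 | h1
    · exact absurd h1 hns
    · exact fin x y z (Or.inl ⟨rfl, rfl, rfl⟩) h1
    · exact fin y z x (Or.inr (Or.inl ⟨rfl, rfl, rfl⟩)) h1
    · exact fin z x y (Or.inr (Or.inr ⟨rfl, rfl, rfl⟩)) h1

end Pool.Agent.Results.MP_50a406_nt.TypesAtSplitPrimes
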